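import Mathlib

/-!
# Alternating subsequences from jumps
-/

set_option autoImplicit false

namespace Pool.Agent.H127.Fluct

/-- `d i` is at most `a` (`s = true`) or at least `b` (`s = false`) -/
def Lab (d : ℕ → ℝ) (a b : ℝ) (s : Bool) (i : ℕ) : Prop :=
  (s = true → d i ≤ a) ∧ (s = false → b ≤ d i)

/-- the alternating signs beginning with `s` -/
def sg (s : Bool) (j : ℕ) : Bool := if j % 2 = 0 then s else !s

theorem sg_succ (s : Bool) (j : ℕ) : sg s (j + 1) = sg (!s) j := by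
  unfold sg
  rcases Nat.mod_two_eq_zero_or_one j with h | h
  · have h2 : (j + 1) % 2 = 1 := by omega
    rw [h, h2]; simp
  · have h2 : (j + 1) % 2 = 0 := by omega
    rw [h, h2]; simp

/-- `r` crossings of `[a, b]` give an alternating subsequence of length `r` with any first sign. -/
theorem alternating {d : ℕ → ℝ} {a b : ℝ} (hab : a < b) {k : ℕ} : ∀ (r : ℕ) (s : Bool) (n : ℕ)
    (E : Finset ℕ), (∀ i ∈ E, n ≤ i ∧ i < k ∧
      ((d i ≤ a ∧ b ≤ d (i + 1)) ∨ (b ≤ d i ∧ d (i + 1) ≤ a))) → r ≤ E.card →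
    ∃ c : ℕ → ℕ, (∀ j < r, n ≤ c j ∧ c j ≤ k ∧ Lab d a b (sg s j) (c j)) ∧
      ∀ j, j + 1 < r → c j < c (j + 1) := by
  intro r
  induction r with
  | zero => intro s n E _ _; exact ⟨fun _ => 0, by simp, by simp⟩
  | succ r ih =>
    intro s n E hE hcard
    have hne : E.Nonempty := Finset.card_pos.mp (by omega)
    set i := E.min' hne with hi
    have hiE : i ∈ E := Finset.min'_mem E hne
    obtain ⟨h1, h2, h3⟩ := hE i hiE
    have hcard' : r ≤ (E.erase i).card := by
      rw [Finset.card_erase_of_mem hiE]; omega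
    obtain ⟨c, hc1, hc2⟩ := ih (!s) (i + 1) (E.erase i) (by
      intro l hl
      rw [Finset.mem_erase] at hl
      obtain ⟨-, h5, h6⟩ := hE l hl.2
      refine ⟨?_, h5, h6⟩
      have h7 : i ≤ l := Finset.min'_le E l hl.2
      have h8 : l ≠ i := hl.1
      omega) hcard'
    -- the end point `e` of the edge with label `s`
    obtain ⟨e, he1, he2, he3, he4⟩ : ∃ e, i ≤ e ∧ e ≤ i + 1 ∧ Lab d a b s e ∧
        (0 < r → e < c 0) := by
      cases s with
      | true =>
        rcases h3 with h3 | h3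
        · refine ⟨i, le_rfl, by omega, ⟨fun _ => h3.1, fun h => by simp at h⟩, fun hr => ?_⟩
          have := (hc1 0 hr).1
          omega
        · refine ⟨i + 1, by omega, le_rfl, ⟨fun _ => h3.2, fun h => by simp at h⟩, fun hr => ?_⟩
          obtain ⟨h5, -, h6⟩ := hc1 0 hr
          rcases Nat.eq_or_lt_of_le h5 with h7 | h7
          · exfalso
            have h8 := h6.2 (by simp [sg])
            rw [← h7] at h8
            linarith [h3.2]
          · exact h7
      | false =>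
        rcases h3 with h3 | h3
        · refine ⟨i + 1, by omega, le_rfl, ⟨fun h => by simp at h, fun _ => h3.2⟩, fun hr => ?_⟩
          obtain ⟨h5, -, h6⟩ := hc1 0 hr
          rcases Nat.eq_or_lt_of_le h5 with h7 | h7
          · exfalso
            have h8 := h6.1 (by simp [sg])
            rw [← h7] at h8
            linarith [h3.2]
          · exact h7
        · refine ⟨i, le_rfl, by omega, ⟨fun h => by simp at h, fun _ => h3.1⟩, fun hr => ?_⟩
          have := (hc1 0 hr).1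
          omega
    refine ⟨fun j => if j = 0 then e else c (j - 1), ?_, ?_⟩
    · intro j hj
      rcases j with _ | j
      · simp only [if_pos]
        refine ⟨by omega, by omega, ?_⟩
        simpa [sg] using he3
      · simp only [Nat.succ_ne_zero, if_false, Nat.add_sub_cancel]
        obtain ⟨h5, h6, h7⟩ := hc1 j (by omega)
        refine ⟨by omega, h6, ?_⟩
        rw [sg_succ]
        exact h7
    · intro j hj
      rcases j with _ | j
      · simp only [if_pos, Nat.succ_ne_zero, if_false, Nat.add_sub_cancel]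
        exact he4 (by omega)
      · simp only [Nat.succ_ne_zero, if_false, Nat.add_sub_cancel]
        have := hc2 j (by omega)
        simpa using this

/-- A jump of size at least `2 s` crosses some interval `[j s, (j + 1) s]`, `j ≥ 1`. -/
theorem exists_cross {u v s M : ℝ} (hs : 0 < s) (hu : 0 ≤ u) (hv : v ≤ M) (h : 2 * s ≤ v - u) :
    ∃ j : ℕ, 1 ≤ j ∧ j + 1 ≤ ⌊M / s⌋₊ ∧ u ≤ j * s ∧ (j + 1) * s ≤ v := by
  refine ⟨max 1 ⌈u / s⌉₊, le_max_left _ _, ?_, ?_, ?_⟩
  · have key : ((max 1 ⌈u / s⌉₊ : ℕ) + 1 : ℝ) * s ≤ v := by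
      rcases le_total ⌈u / s⌉₊ 1 with h1 | h1
      · rw [max_eq_left h1]
        push_cast
        linarith
      · rw [max_eq_right h1]
        have h2 := (Nat.ceil_lt_add_one (div_nonneg hu hs.le)).le
        have h3 : ((⌈u / s⌉₊ : ℝ) + 1) * s ≤ (u / s + 1 + 1) * s :=
          mul_le_mul_of_nonneg_right (by linarith) hs.le
        have e : (u / s + 1 + 1) * s = u + 2 * s := by field_simp; ring
        linarith
    apply Nat.le_floor
    rw [le_div_iff₀ hs]
    push_cast at key ⊢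
    linarith
  · have h1 : u / s ≤ ⌈u / s⌉₊ := Nat.le_ceil _
    have h2 : ((⌈u / s⌉₊ : ℕ) : ℝ) ≤ ((max 1 ⌈u / s⌉₊ : ℕ) : ℝ) := by
      exact_mod_cast le_max_right _ _
    rw [← div_le_iff₀ hs]
    exact h1.trans h2
  · rcases le_total ⌈u / s⌉₊ 1 with h1 | h1
    · rw [max_eq_left h1]
      push_cast
      linarith
    · rw [max_eq_right h1]
      have h2 := (Nat.ceil_lt_add_one (div_nonneg hu hs.le)).le
      have h3 : ((⌈u / s⌉₊ : ℝ) + 1) * s ≤ (u / s + 1 + 1) * s :=
        mul_le_mul_of_nonneg_right (by linarith) hs.le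
      have e : (u / s + 1 + 1) * s = u + 2 * s := by field_simp; ring
      linarith

/-- Many jumps give an alternating subsequence for one of the intervals `[j s, (j + 1) s]`. -/
theorem exists_alternating {d : ℕ → ℝ} {s M : ℝ} (hs : 0 < s) {m k : ℕ}
    (hk : (2 * m + 1) * ⌊M / s⌋₊ ≤ k) (hk0 : 0 < k) (h0 : ∀ i ≤ k, 0 ≤ d i) (hM : ∀ i ≤ k, d i ≤ M)
    (hj : ∀ i < k, 2 * s ≤ |d (i + 1) - d i|) (σ : Bool) :
    ∃ j : ℕ, 1 ≤ j ∧ j + 1 ≤ ⌊M / s⌋₊ ∧ ∃ c : ℕ → ℕ,
      (∀ l < 2 * m + 1, c l ≤ k ∧ Lab d (j * s) ((j + 1) * s) (sg σ l) (c l)) ∧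
      ∀ l, l + 1 < 2 * m + 1 → c l < c (l + 1) := by
  classical
  have hex : ∀ i, i < k → ∃ j : ℕ, 1 ≤ j ∧ j + 1 ≤ ⌊M / s⌋₊ ∧
      ((d i ≤ j * s ∧ (j + 1) * s ≤ d (i + 1)) ∨ ((j + 1) * s ≤ d i ∧ d (i + 1) ≤ j * s)) := by
    intro i hi
    rcases le_total (d i) (d (i + 1)) with h | h
    · have h1 := hj i hi
      rw [abs_of_nonneg (by linarith)] at h1
      obtain ⟨j, h2, h3, h4, h5⟩ := exists_cross hs (h0 i hi.le) (hM (i + 1) hi) h1
      exact ⟨j, h2, h3, Or.inl ⟨h4, h5⟩⟩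
    · have h1 := hj i hi
      rw [abs_of_nonpos (by linarith)] at h1
      obtain ⟨j, h2, h3, h4, h5⟩ := exists_cross (u := d (i + 1)) (v := d i) hs (h0 (i + 1) hi)
        (hM i hi.le) (by linarith)
      exact ⟨j, h2, h3, Or.inr ⟨h5, h4⟩⟩
  choose! f hf using hex
  have hJ : 2 ≤ ⌊M / s⌋₊ := by
    have := hf 0 hk0
    omega
  obtain ⟨j, hjt, hcard⟩ := Finset.exists_le_card_fiber_of_mul_le_card_of_maps_to
    (s := Finset.range k) (t := Finset.Icc 1 (⌊M / s⌋₊ - 1)) (f := f) (n := 2 * m + 1)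
    (by
      intro i hi
      rw [Finset.mem_range] at hi
      obtain ⟨h1, h2, -⟩ := hf i hi
      rw [Finset.mem_Icc]
      omega)
    ⟨1, by rw [Finset.mem_Icc]; omega⟩
    (by
      rw [Finset.card_range, Nat.card_Icc]
      calc (⌊M / s⌋₊ - 1 + 1 - 1) * (2 * m + 1) ≤ ⌊M / s⌋₊ * (2 * m + 1) :=
            Nat.mul_le_mul_right _ (by omega)
        _ = (2 * m + 1) * ⌊M / s⌋₊ := Nat.mul_comm _ _
        _ ≤ k := hk)
  rw [Finset.mem_Icc] at hjt
  have hlt : (j : ℝ) * s < (j + 1) * s := by nlinarith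
  obtain ⟨c, hc1, hc2⟩ := alternating (d := d) hlt (k := k) (2 * m + 1) σ 0
    {x ∈ Finset.range k | f x = j} (by
      intro i hi
      rw [Finset.mem_filter, Finset.mem_range] at hi
      obtain ⟨-, -, h3⟩ := hf i hi.1
      rw [hi.2] at h3
      exact ⟨Nat.zero_le _, hi.1, h3⟩) hcard
  exact ⟨j, hjt.1, by omega, c, fun l hl => ⟨(hc1 l hl).2.1, (hc1 l hl).2.2⟩, hc2⟩

end Pool.Agent.H127.Fluct
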