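import Pool.Agent.TH110.Zig.PrimesRet

/-!
# Fluctuations of the density of a sequence of points, seen from its own points

`q 0 < q 1 < …` is any sequence of points tending to infinity, `cr q x` the number of points `≤ x`.
The starting library bounds the measure of the reals `x` from which the count is alternately above
the line of slope `b` and below the line of slope `a`. Here `x` is replaced by the points `q i`.
-/

set_option autoImplicit false

open MeasureTheory Set Filter Topology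

namespace Pool.Agent.H127.Fluct

open Pool.Agent.TH110.Zig

variable {q : ℕ → ℝ}

/-- low at `t 0 ≥ x`, `t 2`, ..., `t (2 k)`, high at `t 1`, ..., `t (2 k - 1)` -/
def LowF (F : ℝ → ℝ) (a b W : ℝ) (k : ℕ) (x : ℝ) : Prop :=
  ∃ t : ℕ → ℝ, x ≤ t 0 ∧ (∀ i < 2 * k, t i < t (i + 1)) ∧ t (2 * k) ≤ W ∧
    (∀ i < k, b * (t (2 * i + 1) - x) ≤ F (t (2 * i + 1)) - F x) ∧
    ∀ i ≤ k, F (t (2 * i)) - F x ≤ a * (t (2 * i) - x)

/-- the points after `Z` from which `k` zigzags lead to a point `≤ W` -/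
def DL (q : ℕ → ℝ) (a b Z W : ℝ) : ℕ → Set ℝ
  | 0 => Ioc Z W
  | k + 1 => Ioi Z ∩ Dom q a b (DL q a b Z W k)

theorem lowF_mem (hq : Pts q) {a b Z W : ℝ} (ha : 0 < a) (hab : a ≤ b) (hZ : 0 ≤ Z) (k : ℕ) :
    ∀ x, Z < x → LowF (cr q) a b W k x → x ∈ DL q a b Z W k := by
  induction k with
  | zero =>
    rintro x hx ⟨t, h1, -, h2, -, -⟩
    exact ⟨hx, h1.trans (by simpa using h2)⟩
  | succ k ih =>
    rintro x hx ⟨t, h1, h2, h3, h4, h5⟩
    have h01 : t 0 < t 1 := h2 0 (by omega)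
    have h12 : t 1 < t 2 := h2 1 (by omega)
    have h6 := h4 0 (by omega)
    have h7 := h5 1 (by omega)
    simp only [mul_zero, zero_add, mul_one] at h6 h7
    obtain ⟨u, hu, hut, hG, hK⟩ := hq.exists_zigzag ha hab (h1.trans_lt h01) h12.le h6 h7
    have hxu := hu.lt
    refine ⟨hx, hZ.trans hx.le, u, ?_, hu⟩
    apply ih u (hx.trans hxu)
    refine ⟨fun i => t (i + 2), hut, ?_, ?_, ?_, ?_⟩
    · intro i hi
      exact h2 (i + 2) (by omega)
    · have e : 2 * (k + 1) = 2 * k + 2 := by ring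
      rw [e] at h3
      exact h3
    · intro i hi
      have h8 := h4 (i + 1) (by omega)
      have e : 2 * (i + 1) + 1 = 2 * i + 1 + 2 := by ring
      rw [e] at h8
      change b * (t (2 * i + 1 + 2) - u) ≤ cr q (t (2 * i + 1 + 2)) - cr q u
      have e1 : b * (t (2 * i + 1 + 2) - x) = b * t (2 * i + 1 + 2) - b * x := by ring
      have e2 : b * (t (2 * i + 1 + 2) - u) = b * t (2 * i + 1 + 2) - b * u := by ring
      linarith
    · intro i hi
      have h8 := h5 (i + 1) (by omega)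
      have e : 2 * (i + 1) = 2 * i + 2 := by ring
      rw [e] at h8
      change cr q (t (2 * i + 2)) - cr q u ≤ a * (t (2 * i + 2) - u)
      have e1 : a * (t (2 * i + 2) - x) = a * t (2 * i + 2) - a * x := by ring
      have e2 : a * (t (2 * i + 2) - u) = a * t (2 * i + 2) - a * u := by ring
      linarith

theorem meas_DL (hq : Pts q) {a b Z W : ℝ} (ha : 0 < a) (hb : 0 < b) (k : ℕ) :
    MeasurableSet (DL q a b Z W k) := by
  induction k with
  | zero => exact measurableSet_Ioc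
  | succ k ih => exact measurableSet_Ioi.inter (hq.meas_Dom ha hb ih)

theorem DL_subset {a b Z W : ℝ} (k : ℕ) : DL q a b Z W k ⊆ Ioc Z W := by
  induction k with
  | zero => exact subset_rfl
  | succ k ih =>
    rintro x ⟨h1, h2, u, h3, h4⟩
    exact ⟨h1, h4.lt.le.trans (ih h3).2⟩

theorem real_DL_le (hq : Pts q) {a b Z W : ℝ} (ha : 0 < a) (hb : 0 < b) (hZ : 0 ≤ Z)
    (hZW : Z ≤ W) {l : ℝ} (hl : 0 < l) (k : ℕ) :
    volume.real (DL q (a / l) (b / l) Z W k) ≤ (a / b) ^ k * (W - Z) := by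
  have haL : 0 < a / l := by positivity
  have hbL : 0 < b / l := by positivity
  induction k with
  | zero =>
    change volume.real (Ioc Z W) ≤ _
    rw [Real.volume_real_Ioc_of_le hZW]
    simp
  | succ k ih =>
    have hsub : DL q (a / l) (b / l) Z W k ⊆ Icc 0 W := fun x hx =>
      ⟨hZ.trans (DL_subset k hx).1.le, (DL_subset k hx).2⟩
    have h1 := hq.real_Dom_le ha hb (meas_DL hq haL hbL k) hsub hl
    have h2 : volume.real (DL q (a / l) (b / l) Z W (k + 1)) ≤
        volume.real (Dom q (a / l) (b / l) (DL q (a / l) (b / l) Z W k)) :=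
      measureReal_mono (fun x hx => hx.2) (real_ne_top (Dom_subset hsub))
    refine h2.trans (h1.trans ?_)
    rw [pow_succ', mul_assoc]
    exact mul_le_mul_of_nonneg_left ih (by positivity)

/-- low at `t 0`, `t 2`, ..., `t (2 k)` and high at `t 1`, ..., `t (2 k - 1)`, seen from the point `q i`:
for the low times the point `q i` is counted, for the high times it is not -/
def LowAt (q : ℕ → ℝ) (a b W : ℝ) (k i : ℕ) : Prop :=
  ∃ t : ℕ → ℝ, q i ≤ t 0 ∧ (∀ j < 2 * k, t j < t (j + 1)) ∧ t (2 * k) ≤ W ∧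
    (∀ j < k, (i : ℝ) + 1 + b * (t (2 * j + 1) - q i) ≤ cr q (t (2 * j + 1))) ∧
    ∀ j ≤ k, cr q (t (2 * j)) ≤ i + a * (t (2 * j) - q i)

theorem LowAt.heights (hq : Pts q) {a b Z W : ℝ} (ha : 0 < a) (hab : a ≤ b) (hZ : 0 ≤ Z)
    {k i : ℕ} (hi : Z < q i) (h : LowAt q a b W k i) {y : ℝ} (h1 : (i : ℝ) < y)
    (h2 : y ≤ i + 1) :
    ∃ v, RC q a y v ∧ v ∈ DL q a b Z W k ∧ ∀ k', k = k' + 1 → v ∈ DK q a b Z W k' := by
  obtain ⟨t, t0, t1, t2, t3, t4⟩ := h
  have h4 : (cnt q (t 0) : ℝ) ≤ y + a * (t 0 - q i) := by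
    have := t4 0 (Nat.zero_le _)
    rw [mul_zero] at this
    unfold cr at this
    linarith
  obtain ⟨m, hm, hmt⟩ := hq.exists_PC ha h1 h2 t0 h4
  have hc := hm.cnt_eq hq ha
  have hn := hm.quot_nonneg ha
  set v : ℝ := q i + (m - y) / a with hv
  have hcv : cr q v = y + a * (v - q i) := by
    unfold cr
    rw [hc, hv]
    field_simp
    ring
  have hvi : q i ≤ v := by linarith
  have hvZ : Z < v := hi.trans_le hvi
  have hhigh : ∀ s, (i : ℝ) + 1 + b * (s - q i) ≤ cr q s → b * (s - v) ≤ cr q s - cr q v := by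
    intro s hs
    rw [hcv]
    have h5 : a * (v - q i) ≤ b * (v - q i) := mul_le_mul_of_nonneg_right hab (by linarith)
    have e : b * (s - v) = b * (s - q i) - b * (v - q i) := by ring
    linarith
  have hlow : ∀ s, cr q s ≤ i + a * (s - q i) → cr q s - cr q v ≤ a * (s - v) := by
    intro s hs
    rw [hcv]
    have e : a * (s - v) = a * (s - q i) - a * (v - q i) := by ring
    linarith
  refine ⟨v, ⟨i, m, hm, rfl⟩, ?_, ?_⟩
  · apply lowF_mem hq ha hab hZ k v hvZ
    exact ⟨t, hmt, t1, t2, fun j hj => hhigh _ (t3 j hj), fun j hj => hlow _ (t4 j hj)⟩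
  · rintro k' rfl
    apply hq.oscF_mem ha hab hZ k' v hvZ
    refine ⟨fun j => t (j + 1), hmt.trans_lt (t1 0 (by omega)), fun j hj => t1 (j + 1) (by omega),
      ?_, ?_, ?_⟩
    · have h5 : t (2 * k' + 1) < t (2 * k' + 1 + 1) := t1 (2 * k' + 1) (by omega)
      have e : 2 * (k' + 1) = 2 * k' + 1 + 1 := by ring
      rw [e] at t2
      change t (2 * k' + 1) ≤ W
      linarith
    · intro j hj
      exact hhigh _ (t3 j (by omega))
    · intro j hj
      exact hlow _ (t4 (j + 1) (by omega))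

/-- a set containing the vertical segments of the points `q i`, `i ∈ I` -/
theorem card_le (I : Finset ℕ) {H : Set ℝ} (hH : volume H ≠ ⊤)
    (h : ∀ i ∈ I, Ioc (i : ℝ) (i + 1) ⊆ H) : (I.card : ℝ) ≤ volume.real H := by
  have h1 : volume.real (⋃ i ∈ I, Ioc (i : ℝ) (i + 1)) = (I.card : ℝ) := by
    have hd : (I : Set ℕ).PairwiseDisjoint fun i => Ioc (i : ℝ) (i + 1) := by
      intro i _ j _ hij
      rw [Function.onFun, Set.disjoint_left]
      rintro y ⟨h1, h2⟩ ⟨h3, h4⟩
      exact hij (cast_between h1 h2 h3 h4)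
    rw [measureReal_biUnion_finset hd (fun i _ => measurableSet_Ioc)
      (fun i _ => measure_Ioc_lt_top.ne)]
    have : ∀ i ∈ I, volume.real (Ioc (i : ℝ) (i + 1)) = 1 := by
      intro i _
      rw [Real.volume_real_Ioc_of_le (by linarith)]
      ring
    rw [Finset.sum_congr rfl this]
    simp
  rw [← h1]
  exact measureReal_mono (iUnion₂_subset h) hH

theorem real_heights_le (hq : Pts q) {a M : ℝ} (ha : 0 < a) {l : ℝ} (hl : 0 < l) {T : Set ℝ}
    (hT : MeasurableSet T) (hTM : T ⊆ Icc 0 M) :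
    volume {y | y ∈ (univ : Set ℝ) ∧ ∃ v ∈ T, RC q (a / l) y v} ≠ ⊤ ∧
    volume.real {y | y ∈ (univ : Set ℝ) ∧ ∃ v ∈ T, RC q (a / l) y v} ≤ a / l * volume.real T := by
  have haL : 0 < a / l := by positivity
  have h1 := hq.vol_C haL (U := univ) MeasurableSet.univ hT
  have hfin := real_ne_top hTM
  have h2 : volume {v | v ∈ T ∧ ∃ y ∈ (univ : Set ℝ), RC q (a / l) y v} ≤ volume T :=
    measure_mono fun v hv => hv.1
  have hfin2 : ENNReal.ofReal (a / l) * volume T ≠ ⊤ :=
    ENNReal.mul_ne_top ENNReal.ofReal_ne_top hfin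
  have h3 : volume {y | y ∈ (univ : Set ℝ) ∧ ∃ v ∈ T, RC q (a / l) y v} ≤
      ENNReal.ofReal (a / l) * volume T := by
    rw [h1]
    gcongr
  refine ⟨(h3.trans_lt (lt_top_iff_ne_top.mpr hfin2)).ne, ?_⟩
  have h4 := ENNReal.toReal_mono hfin2 h3
  rw [ENNReal.toReal_mul, ENNReal.toReal_ofReal haL.le] at h4
  exact h4

/-- **The deterministic bound for the points.** -/
theorem card_low_le (hq : Pts q) {a b Z W : ℝ} (ha : 0 < a) (hab : a ≤ b) (hZ : 0 ≤ Z)
    (hZW : Z ≤ W) {l : ℝ} (hl : 0 < l) (k : ℕ) (I : Finset ℕ)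
    (hI : ∀ i ∈ I, Z < q i ∧ LowAt q (a / l) (b / l) W k i) :
    (I.card : ℝ) ≤ (a / b) ^ k * min (cr q W - cr q Z) (a * (W - Z) / l) := by
  have hb : 0 < b := by linarith
  have haL : 0 < a / l := by positivity
  have hbL : 0 < b / l := by positivity
  have habL : a / l ≤ b / l := div_le_div_of_nonneg_right hab hl.le
  have hW : 0 ≤ W := hZ.trans hZW
  rw [mul_min_of_nonneg _ _ (by positivity)]
  refine le_min ?_ ?_
  · rcases k with _ | k'
    · rw [pow_zero, one_mul]
      have h1 : (I.card : ℝ) ≤ volume.real (Ioc (cr q Z) (cr q W)) := by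
        refine card_le I measure_Ioc_lt_top.ne ?_
        intro i hi y hy
        obtain ⟨h1, t, t0, -, t2, -, -⟩ := hI i hi
        rw [mul_zero] at t2
        refine ⟨lt_of_le_of_lt ?_ hy.1, hy.2.trans ?_⟩
        · unfold cr
          have := (hq.cnt_le_iff Z i).mpr h1
          exact_mod_cast this
        · unfold cr
          have := (hq.lt_cnt_iff W i).mpr (t0.trans t2)
          exact_mod_cast this
      have hmono : cr q Z ≤ cr q W := hq.cr_mono hZW
      rwa [Real.volume_real_Ioc_of_le hmono] at h1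
    · have hsub : DK q (a / l) (b / l) Z W k' ⊆ Icc 0 W := fun x hx =>
        ⟨hZ.trans (hq.DK_subset hbL k' hx).1.le, (hq.DK_subset hbL k' hx).2⟩
      obtain ⟨h1, h2⟩ := real_heights_le hq ha hl (hq.meas_DK haL hbL k') hsub
      have h3 : (I.card : ℝ) ≤
          volume.real {y | y ∈ (univ : Set ℝ) ∧ ∃ v ∈ DK q (a / l) (b / l) Z W k', RC q (a / l) y v} := by
        refine card_le I h1 ?_
        intro i hi y hy
        obtain ⟨v, hv, -, hv2⟩ := (hI i hi).2.heights hq haL habL hZ (hI i hi).1 hy.1 hy.2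
        exact ⟨mem_univ _, v, hv2 k' rfl, hv⟩
      refine h3.trans (h2.trans ?_)
      have h4 := hq.real_DK_le (Z := Z) (W := W) ha hb hZ hl k'
      obtain ⟨-, h5⟩ := hq.real_DK_zero (a := a) hb hZW hl
      have h6 : volume.real (DK q (a / l) (b / l) Z W k') ≤
          (a / b) ^ k' * ((cr q W - cr q Z) * l / b) :=
        h4.trans (mul_le_mul_of_nonneg_left h5 (by positivity))
      refine (mul_le_mul_of_nonneg_left h6 haL.le).trans (le_of_eq ?_)
      rw [pow_succ]
      field_simp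
  · have hsub : DL q (a / l) (b / l) Z W k ⊆ Icc 0 W := fun x hx =>
        ⟨hZ.trans (DL_subset k hx).1.le, (DL_subset k hx).2⟩
    obtain ⟨h1, h2⟩ := real_heights_le hq ha hl (meas_DL hq haL hbL k) hsub
    have h3 : (I.card : ℝ) ≤
        volume.real {y | y ∈ (univ : Set ℝ) ∧ ∃ v ∈ DL q (a / l) (b / l) Z W k, RC q (a / l) y v} := by
      refine card_le I h1 ?_
      intro i hi y hy
      obtain ⟨v, hv, hv1, -⟩ := (hI i hi).2.heights hq haL habL hZ (hI i hi).1 hy.1 hy.2
      exact ⟨mem_univ _, v, hv1, hv⟩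
    refine h3.trans (h2.trans ?_)
    have h4 := real_DL_le hq (Z := Z) (W := W) ha hb hZ hZW hl k
    refine (mul_le_mul_of_nonneg_left h4 haL.le).trans (le_of_eq ?_)
    field_simp

end Pool.Agent.H127.Fluct
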